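import Pool.Agent.W893.SY.Fin2

/-!
# Circuits for the clique function that are symmetric inside small blocks

Let `m` disjoint sets of five vertices (blocks) be given. A circuit is symmetric inside the blocks
if all even permutations of the vertices inside the blocks extend to automorphisms of the circuit;
the group of these permutations is a product of `m` alternating groups of order `60`. Such circuits
for the `k`-clique function need `2 ^ Ω(min(m, k, n - k))` gates, while a circuit of size `s` can be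
made symmetric at the cost of a factor `60 ^ m`. So for the function of the problem (a clique with
more than `√n` vertices) symmetric circuits of polynomial size do not exist if the number of blocks
is not `O(log n)`, and they exist if and only if circuits of polynomial size exist, if it is
`O(log n)`.
-/

namespace Pool.Agent.Results.MP_0a1b52_lc.BlockSymmetry

open Pool.Agent.W893.SY

theorem result :
    (∃ c : ℝ, 0 < c ∧ ∀ (n k m s : ℕ) (e : Fin m × Fin 5 ↪ Fin n) (C : Net (Lit n) Bool s),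
      BlockSym e C → DecidesClique k C →
        c * 2 ^ (c * (min m (min k (n - k)) : ℕ)) ≤ (s : ℝ)) ∧
    (∀ (n k m s : ℕ) (e : Fin m × Fin 5 ↪ Fin n) (C : Net (Lit n) Bool s),
      C.AndOr → DecidesClique k C →
        ∃ C' : Net (Lit n) Bool (60 ^ m * s + 1), C'.AndOr ∧ BlockSym e C' ∧ DecidesClique k C') ∧
    (∀ (m : ℕ → ℕ) (e : ∀ n, Fin (m n) × Fin 5 ↪ Fin n),
      ((∃ a, ∀ n, 2 ≤ n → m n ≤ a * Nat.log 2 n) →
        ((∃ d : ℕ, ∀ n, 2 ≤ n → ∃ s, s ≤ n ^ d ∧ ∃ C : Net (Lit n) Bool s,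
            C.AndOr ∧ DecidesClique (Nat.sqrt n + 1) C) ↔
          (∃ d : ℕ, ∀ n, 2 ≤ n → ∃ s, s ≤ n ^ d ∧ ∃ C : Net (Lit n) Bool s,
            C.AndOr ∧ BlockSym (e n) C ∧ DecidesClique (Nat.sqrt n + 1) C))) ∧
      ((¬ ∃ a, ∀ n, 2 ≤ n → m n ≤ a * Nat.log 2 n) →
        ¬ ∃ d : ℕ, ∀ n, 2 ≤ n → ∃ s, s ≤ n ^ d ∧ ∃ C : Net (Lit n) Bool s,
            BlockSym (e n) C ∧ DecidesClique (Nat.sqrt n + 1) C)) := by
  refine ⟨?_, ?_, ?_⟩
  · obtain ⟨c, hc, _, h⟩ := lower
    exact ⟨c, hc, h⟩
  · intro n k m s e C hC hk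
    exact upper n k m s e C hC hk
  · intro m e
    refine ⟨fun hm => ⟨fun h => few m e hm h, ?_⟩, fun hm => many m e hm⟩
    rintro ⟨d, hd⟩
    refine ⟨d, fun n hn => ?_⟩
    obtain ⟨s, hs, C, h1, _, h3⟩ := hd n hn
    exact ⟨s, hs, C, h1, h3⟩

end Pool.Agent.Results.MP_0a1b52_lc.BlockSymmetry
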