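import Pool.Agent.W896.FD.CL

/-!
# The clique function and circuits of small formal degree

A Boolean circuit with AND gates of fan-in two, OR gates of any fan-in and negations at the inputs
accepts if and only if it has a proof tree all of whose leaves are true literals; the formal degree
in an input bit is the largest number of leaves with this bit. (Circuits of polynomial size and
polynomial total degree are non-uniform LOGCFL, that is, non-uniform nondeterministic machines with
logarithmic memory, a stack and polynomial time; the circuits of degree one in every bit are the
decomposable ones, DNNFs, and a nondeterministic syntactic read-`k` branching program is a circuit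
of degree at most `k` in every bit.)

The input consists of the bits of a graph `G` with `n` vertices. Let a finite family of circuits
accept no graph without a clique of `s` vertices, and let it accept each graph with such a clique
with probability at least `2 ^ (- m / 2 ^ (60 (k + 1)))`, `m = min (s, n - s)` (over a random
circuit of the family; one circuit that computes the function is a special case). If the formal
degrees of each circuit sum up to at most `k n ^ 2` then some circuit of the family has size at
least `2 ^ (m / 2 ^ (60 (k + 1)) - 1)`. For cliques with more than `√n` vertices this is
`2 ^ Ω (√n)` if `k` is constant; and circuits of polynomial size need formal degree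
`Ω (n ^ 2 log n)`, that is, `Ω (log n)` for an average bit. With degree one in each bit the size
`n ^ (s + 2)` suffices (guess the clique).

Proof. The graphs consist of blocks with four vertices, `u` vertices which are joined to all the
vertices of the blocks and to each other, and isolated vertices; vertices in different blocks are
adjacent, too. In each block exactly one of two disjoint pairs is joined, so that the largest clique
has two vertices in every block and `s` vertices altogether. If the states of the two pairs do not
fit there is a block without any edge, and the graph can be coloured with `s - 1` colours. Hence a
rectangle for a partition of the bits which separates the pairs of a block contains only few of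
these graphs. The vertices are permuted randomly; for all but an exponentially small fraction of
the permutations, each of the `O (k ^ 2)` pieces of a proof tree separates the pairs in linearly
many blocks after a random colouring (`Pool.Agent.W896.FD.moment`, `Pool.Agent.W896.FD.count`).
-/

set_option autoImplicit false

namespace Pool.Agent.Results.MP_0a1b52_lc.FormalDegree

open Pool.Agent.W896.RK Pool.Agent.W896.FD

/-- Let `U r` be a finite nonempty family of circuits with the bits of a graph on `n` vertices as
inputs such that no circuit of the family accepts a graph without a clique of `s` vertices, and
such that every graph with such a clique is accepted by at least a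
`2 ^ (- ⌊min (s, n - s) / 2 ^ (60 (k + 1))⌋)` fraction of the circuits. If in every circuit of the
family the sum of the formal degrees in all bits is at most `k n ^ 2` then, for some circuit of the
family, `min (s, n - s) ≤ 2 ^ (60 (k + 1)) (⌊log₂ g⌋ + 1)`, where `g` is its number of gates. -/
theorem result (k n s : ℕ) (R : Type) [Fintype R] [Nonempty R]
    (U : R → Circ (Sym2 (Fin n)))
    (hU : ∀ r (G : SimpleGraph (Fin n)), (U r).Val (bits G) (U r).out → ¬ G.CliqueFree s)
    (hc : ∀ G : SimpleGraph (Fin n), ¬ G.CliqueFree s →
      Nat.card R ≤ 2 ^ (min s (n - s) / 2 ^ (60 * (k + 1))) *
        Nat.card {r // (U r).Val (bits G) (U r).out})
    (hd : ∀ r, ∃ d : (U r).G → Sym2 (Fin n) → ℕ, IsDeg (U r) id d ∧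
      ∑ e, d (U r).out e ≤ k * n ^ 2) :
    ∃ r, min s (n - s) ≤ 2 ^ (60 * (k + 1)) * (Nat.log 2 (Fintype.card (U r).G) + 1) :=
  clique_final k n s R U hU hc hd

end Pool.Agent.Results.MP_0a1b52_lc.FormalDegree
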