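import Pool.Agent.W952.ClqM

set_option autoImplicit false

/-! # The clique function needs linear space in linear time

For every `k` there is a `D` such that for all `n ≥ D` and all `s` with `D ≤ s ≤ n / 2` (in
particular `s = ⌊√n⌋ + 1`) a deterministic branching program with fewer than `2 ^ (n ^ 2 / D)` nodes
that decides whether a graph with `n` vertices has a clique of size `s` makes more than `k n ^ 2`
queries on some graph without such a clique. There is no restriction on the order or on the
repetition of the queries. In the number `N` of the input bits: time `k N` requires `2 ^ (c_k N)`
nodes, that is, space `c_k N`, which is optimal up to the constant `c_k`.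

Proof. The quadratic forms of `Frm.lean` (see the file on Hamiltonicity, `MP_6b3410_lc`) are put
into the clique problem: a graph that has a clique of size `s` if and only if one of the forms is
not zero. Its vertices are the pairs of a class and a value, for each configuration a set of more
vertices than there are classes, and `U` vertices joined to all others. A clique of size `s` must
contain all the vertices of one configuration and then one vertex of each class that this
configuration uses. The tables are edges between two classes; two classes used by a configuration
but not on the same place belong to no table, since the matchings of classes are induced, so that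
their vertices may be joined. The tables fill a fraction of all pairs that does not depend on `k`. -/

namespace Pool.Agent.Results.MP_0a1b52_lc.LinearTimePrograms

open Pool.Agent.H554R2.Coin

/-- `x e` tells for each pair `e` of vertices whether it is joined in the graph `G`. -/
theorem result (k : ℕ) : ∃ D : ℕ, 0 < D ∧ ∀ n ≥ D, ∀ s, D ≤ s → 2 * s ≤ n →
    ∀ P : BP (Sym2 (Fin n)) Bool, Fintype.card P.State < 2 ^ (n ^ 2 / D) →
    (∀ (G : SimpleGraph (Fin n)) (x : Sym2 (Fin n) → Bool), (∀ e, x e = true ↔ e ∈ G.edgeSet) →
      ∀ l, P.Comp x l false → G.CliqueFree s) →
    ∃ (G : SimpleGraph (Fin n)) (x : Sym2 (Fin n) → Bool), (∀ e, x e = true ↔ e ∈ G.edgeSet) ∧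
      G.CliqueFree s ∧ ∀ l, P.Comp x l false → k * n ^ 2 < l.length :=
  Pool.Agent.W952.Clq.main k

end Pool.Agent.Results.MP_0a1b52_lc.LinearTimePrograms
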