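import Pool.Agent.W969.MC.Curve

/-!
Cliques in graphs: the trade-off between the size of a circuit and the number of its non-monotone
gates, for real circuits and two-sided error.

The circuits compute with real numbers, their monotone gates compute arbitrary nondecreasing real
functions of two arguments (Pudlák's model), and there are some arbitrary further gates, for
instance `t` NOT gates; `freedom` is the product of the numbers (fan-in + 1) over the further gates,
that is `2 ^ t` for `t` NOT gates. A randomised circuit is a finite nonempty family of circuits from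
which one is chosen uniformly at random; it accepts graphs with a clique with `k` vertices with
probability at least `p + n ^ (-δ)` and the others with probability at most `p` (`p = 0` and a family
with one member for an ordinary circuit).

Result: if the freedom is at most `F`, then the size is at least `n ^ (δ l)` for every `l ≤ k` with
`l ^ 3 F ≤ n ^ (2 - ε)` or `l ^ 2 max (F, n) ≤ n ^ (2 - ε)`. So with `φ log n` NOT gates,
`0 ≤ φ < 2`, the size is at least `n ^ (δ min (k, n ^ (e(φ) - ε)))` with
`e(φ) = max ((2 - φ) / 3, min (1/2, 1 - φ/2))`: the exponent is `2/3` without NOT gates, `1/2` for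
`φ` from `1/2` to `1`, and it goes to `0` only as `φ` goes to `2`. This is the end of the range,
since `2 log n` NOT gates are enough for circuits of polynomial size for all functions that have
such circuits (Markov, Fischer). For the clique function of the problem (`k = ⌊√n⌋ + 1`) the bound
is `n ^ (δ √n)`, best possible up to `δ`, if the number of NOT gates is less than
`(1/2 - ε) log n`.

The proof: an average case version of the approximation method for constraint satisfaction problems
on sparse expanding hypergraphs, and an embedding of many copies of the problem into one graph, such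
that they may share vertices and edges, but no edge whose presence can change, and such that every
large clique belongs to one copy. There are two such embeddings. In the first one each constraint
belongs to two groups of vertices, whose colours tell the copy; in the second one the edges that can
change join one vertex, which tells the copy, to the tuples of values.
-/

namespace Pool.Agent.Results.MP_0a1b52_lc.NegationCurve

/-- A real circuit with the input bits `Inp` and the gates `0, ..., s - 1`. Gate `i` has `w i`
inputs, namely `a i j`, each an input bit (`0` or `1`) or an earlier gate, and its value on the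
input `x` is `val x i`. The gates outside `T` compute nondecreasing functions of at most two real
numbers. The output of a gate `i` in `T` depends in an arbitrary way on the bits that tell whether
`θ i j` is at most the `j`-th input (a NOT gate, for instance). The circuit accepts if the value of
gate `out` is at least `τ`. -/
structure RealCircuit (Inp : Type) where
  s : ℕ
  T : Finset (Fin s)
  w : Fin s → ℕ
  a : (i : Fin s) → Fin (w i) → Inp ⊕ Fin s
  op : (i : Fin s) → (Fin (w i) → ℝ) → ℝ
  θ : (i : Fin s) → Fin (w i) → ℝ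
  val : (Inp → Bool) → Fin s → ℝ
  out : Fin s
  τ : ℝ
  earlier : ∀ i j k, a i j = Sum.inr k → k < i
  mono : ∀ i ∉ T, w i ≤ 2 ∧ Monotone (op i)
  free : ∀ i ∈ T, ∀ z z' : Fin (w i) → ℝ, (∀ j, θ i j ≤ z j ↔ θ i j ≤ z' j) → op i z = op i z'
  spec : ∀ x i, val x i = op i (fun j =>
    Sum.elim (fun p => if x p = true then (1 : ℝ) else 0) (val x) (a i j))

/-- The circuit accepts the input. -/
def RealCircuit.Accepts {Inp : Type} (C : RealCircuit Inp) (x : Inp → Bool) : Prop :=
  C.τ ≤ C.val x C.out

/-- The size: the number of gates plus the number of inputs of the gates in `T`. -/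
def RealCircuit.size {Inp : Type} (C : RealCircuit Inp) : ℕ := C.s + ∑ i ∈ C.T, C.w i

/-- The product of the numbers `w i + 1` over the gates in `T`. It is `1` if `T` is empty and
`2 ^ t` if `T` consists of `t` NOT gates. -/
def RealCircuit.freedom {Inp : Type} (C : RealCircuit Inp) : ℕ := ∏ i ∈ C.T, (C.w i + 1)

/-- The probability that the input is accepted by a circuit that is chosen uniformly at random from
the family `C`. -/
noncomputable def acceptance {R Inp : Type} (C : R → RealCircuit Inp) (x : Inp → Bool) : ℝ :=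
  (Nat.card {ρ : R // (C ρ).Accepts x} : ℝ) / Nat.card R

/-- The input bits: the pairs of vertices. -/
abbrev Pairs (n : ℕ) : Type := {e : Finset (Fin n) // e.card = 2}

/-- The graph on the vertices `0, ..., n - 1` whose edges are the pairs `e` with `x e = true` has a
clique with `k` vertices. -/
def HasClique (n k : ℕ) (x : Pairs n → Bool) : Prop :=
  ∃ S : Finset (Fin n), S.card = k ∧ ∀ e : Pairs n, e.1 ⊆ S → x e = true

/-- For every `ε > 0` there are `δ > 0` and `k0` such that for all `n`, `k`, `l` with
`k0 ≤ l ≤ k ≤ (n + 1) / 2` and all real `F`, `p` the following holds. Let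
`l ^ 3 F ≤ n ^ (2 - ε)` or `l ^ 2 max (F, n) ≤ n ^ (2 - ε)`. If a finite nonempty family of real
circuits whose numbers `freedom` are at most `F` accepts every graph with `n` vertices that has a
clique with `k` vertices with probability at least `p + n ^ (-δ)` and all the others with
probability at most `p`, then some member has size at least `n ^ (δ l)`. -/
theorem result (ε : ℝ) (hε : 0 < ε) :
    ∃ δ : ℝ, 0 < δ ∧ ∃ k0 : ℕ, ∀ n k l : ℕ, k0 ≤ l → l ≤ k → 2 * k ≤ n + 1 → ∀ F : ℝ,
      ((l : ℝ) ^ 3 * F ≤ (n : ℝ) ^ (2 - ε) ∨ (l : ℝ) ^ 2 * max F n ≤ (n : ℝ) ^ (2 - ε)) →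
      ∀ (R : Type) [Finite R] [Nonempty R] (C : R → RealCircuit (Pairs n)) (p : ℝ),
        (∀ x, HasClique n k x → p + (n : ℝ) ^ (-δ) ≤ acceptance C x) →
        (∀ x, ¬ HasClique n k x → acceptance C x ≤ p) →
        (∀ ρ, ((C ρ).freedom : ℝ) ≤ F) →
        ∃ ρ, (n : ℝ) ^ (δ * l) ≤ ((C ρ).size : ℝ) := by
  obtain ⟨δ1, hδ1, k1, H1⟩ := Pool.Agent.W969.MC.curve_rand 0 2 (by norm_num) (by norm_num) ε hε
  obtain ⟨δ2, hδ2, k2, H2⟩ := Pool.Agent.W969.MC.curve_rand 1 1 (by norm_num) (by norm_num) ε hε
  refine ⟨min δ1 δ2, lt_min hδ1 hδ2, max (max k1 k2) 1, ?_⟩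
  intro n k l hl hlk hkn F hF R _ _ C p h1 h2 h3
  let _ : Fintype R := Fintype.ofFinite R
  have hR : (0 : ℝ) < Fintype.card R := by exact_mod_cast Fintype.card_pos
  have hl1 : 1 ≤ l := (le_max_right _ _).trans hl
  have hlk1 : k1 ≤ l := (le_max_left _ _).trans ((le_max_left _ _).trans hl)
  have hlk2 : k2 ≤ l := (le_max_right _ _).trans ((le_max_left _ _).trans hl)
  have hnR : (1 : ℝ) ≤ n := by exact_mod_cast (by omega : 1 ≤ n)
  have hacc : ∀ x, acceptance C x * Fintype.card R =
      ({ρ : R | (C ρ).Accepts x}.ncard : ℝ) := by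
    intro x
    unfold acceptance
    rw [Nat.card_eq_fintype_card (α := R), div_mul_cancel₀ _ hR.ne']
    rfl
  set C' : R → Pool.Agent.W969.MC.RC (Pairs n) := fun ρ => ⟨(C ρ).s, (C ρ).T, (C ρ).w, (C ρ).a,
    (C ρ).op, (C ρ).θ, (C ρ).val, (C ρ).out, (C ρ).τ, (C ρ).earlier, (C ρ).mono, (C ρ).free,
    (C ρ).spec⟩ with hC'
  have hF1 : 1 ≤ F := by
    obtain ⟨ρ⟩ := ‹Nonempty R›
    refine le_trans ?_ (h3 ρ)
    have : 1 ≤ (C ρ).freedom := Finset.one_le_prod' (fun i _ => Nat.le_add_left 1 _)
    exact_mod_cast this
  have hδn : ∀ δ : ℝ, min δ1 δ2 ≤ δ → ∀ x, HasClique n k x →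
      (p + (n : ℝ) ^ (-δ)) * Fintype.card R ≤ ({ρ : R | (C ρ).Accepts x}.ncard : ℝ) := by
    intro δ hδ x hx
    refine le_trans (mul_le_mul_of_nonneg_right ?_ hR.le) (le_of_eq (hacc x))
    refine le_trans ?_ (h1 x hx)
    have : (n : ℝ) ^ (-δ) ≤ (n : ℝ) ^ (-(min δ1 δ2)) :=
      Real.rpow_le_rpow_of_exponent_le hnR (by linarith)
    linarith
  have hno : ∀ x, ¬ HasClique n k x →
      ({ρ : R | (C ρ).Accepts x}.ncard : ℝ) ≤ p * Fintype.card R := fun x hx => by
    refine le_trans (le_of_eq (hacc x).symm) (mul_le_mul_of_nonneg_right (h2 x hx) hR.le)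
  have hend : ∀ δ : ℝ, min δ1 δ2 ≤ δ → (∃ ρ, (n : ℝ) ^ (δ * l) ≤ ((C' ρ).size : ℝ)) →
      ∃ ρ, (n : ℝ) ^ (min δ1 δ2 * l) ≤ ((C ρ).size : ℝ) := by
    rintro δ hδ ⟨ρ, hρ⟩
    refine ⟨ρ, le_trans ?_ hρ⟩
    apply Real.rpow_le_rpow_of_exponent_le hnR
    exact mul_le_mul_of_nonneg_right hδ (Nat.cast_nonneg _)
  rcases hF with hF | hF
  · refine hend δ1 (min_le_left _ _) (H1 n k l hlk1 hlk hkn F ?_ R C' p
      (hδn δ1 (min_le_left _ _)) hno h3)
    have e1 : ((0 : ℕ) : ℝ) + ((2 : ℕ) : ℝ) - ε = 2 - ε := by push_cast; ring
    rw [e1, pow_zero, max_eq_left hF1]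
    exact hF
  · refine hend δ2 (min_le_right _ _) (H2 n k l hlk2 hlk hkn F ?_ R C' p
      (hδn δ2 (min_le_right _ _)) hno h3)
    have e1 : ((1 : ℕ) : ℝ) + ((1 : ℕ) : ℝ) - ε = 2 - ε := by push_cast; ring
    rw [e1, pow_one]
    exact hF

end Pool.Agent.Results.MP_0a1b52_lc.NegationCurve
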