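import Pool.Agent.W935.LC4
import Pool.Agent.W935.LC5

/-!
Weighted votes of circuits for CLIQUE.

A vote consists of finitely many circuits with AND gates, OR gates and arbitrary further gates (for
instance NOT gates), and of nonnegative real weights of their gates. Its score is the total weight
of the gates that have the value `1`. It decides the clique function if the score is at least
`θ + 1` on the graphs with a clique of more than `√n` vertices and at most `θ` on the other graphs.
The weights and the number of circuits may be exponentially large.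

A circuit is charged with `min (1, w) (∏ (k + 1) - 1)`, where `w` is its total weight and `k` runs
over the numbers of inputs of its further gates. So monotone circuits are free.

Theorem: the total charge is at least `n ^ (2 - ε)`, if all circuits have size at most
`exp (n ^ δ)`. On the other hand all negations of a circuit can be moved to the inputs, where they
form one further gate with `n (n - 1) / 2` inputs and outputs. So charge `n (n - 1) / 2` is always
enough (for one circuit with one weight), if there are small circuits for CLIQUE at all.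

Examples.
(a) One circuit and one weight: small circuits for CLIQUE have more than `(2 - ε) log₂ n` NOT gates.
The same holds if there is a threshold gate with nonnegative weights on top of the circuit.
(b) A threshold gate with integer weights of absolute value at most `exp (n ^ δ)` on top of small
monotone circuits has at least `n ^ (2 - ε)` negative weights (a circuit `g` with the weight `-c` is
the circuit `NOT g` with the weight `c`, up to a constant).
(c) If the clique function is `∑ a i * f i - ∑ c j * g j` (or if this sum separates the two kinds of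
graphs with margin `1`) with small monotone circuits `f i`, `g j` and nonnegative reals `a i`,
`c j`, then `∑ min (1, c j) ≥ n ^ (2 - ε)`. So the negative part has large total weight, however
small its members are.
(d) A randomised circuit that errs with probability at most `1/2 - β` on every graph has on average
at least `2 β n ^ (2 - ε)` changes `2 ^ (number of NOT gates) - 1`, even for exponentially small
`β`.

The proof: for the function POLY on a copy inside the graph there is a distribution on rejected
inputs such that each small monotone circuit accepts a random graph of a polynomial at most as often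
as a random rejected input, up to an exponentially small error (robust sunflowers: the smallest
minterms of the approximator already give enough acceptance on the dense random sets). So along a
chain of rejected graphs, built copy by copy, in each copy the weighted number of the circuits whose
further gates change their input bits can be made at least `1 - o(1)`.
-/

namespace Pool.Agent.Results.MP_0a1b52_lc.WeightedVotes

open Pool.Agent.H520R2.NM (Circuit)

/-- A vote: the circuits `circuit r` (`r < k`) with inputs in `V` and with the wires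
`0, ..., n r - 1`, and nonnegative weights of these wires. See `Pool.Agent.H520R2.NM.Circuit`:
circuits of AND gates and OR gates of fan-in two and of further gates `any w u G a` with `w` inputs
`a 0, ..., a (w - 1)` and `u` outputs that compute an arbitrary function `G`; the inputs of a gate
are inputs of the circuit, constants or wires produced by earlier gates. -/
structure Vote (V : Type) where
  k : ℕ
  n : Fin k → ℕ
  circuit : (r : Fin k) → Circuit V (n r)
  weight : (r : Fin k) → Fin (n r) → ℝ
  nonneg : ∀ r j, 0 ≤ weight r j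

/-- the score: the total weight of the wires with the value `1` -/
noncomputable def Vote.score {V : Type} (P : Vote V) (x : V → Bool) : ℝ :=
  ∑ r, ∑ j, if (P.circuit r).vals x j = true then P.weight r j else 0

/-- the total weight -/
noncomputable def Vote.total {V : Type} (P : Vote V) : ℝ := ∑ r, ∑ j, P.weight r j

/-- Every circuit of the vote has size at most `S`, where the size is the number of AND gates and OR
gates plus the total number of inputs of the further gates. -/
def Vote.SizeLe {V : Type} (P : Vote V) (S : ℕ) : Prop :=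
  ∀ r, (P.circuit r).size + (P.circuit r).fanins.sum ≤ S

/-- The charge: each circuit with total weight `w` whose further gates have `k 1, ..., k t` inputs
is charged with `min (1, w) ((k 1 + 1) ... (k t + 1) - 1)`, in particular `min (1, w) (2 ^ t - 1)`
for `t` NOT gates. -/
noncomputable def Vote.charge {V : Type} (P : Vote V) : ℝ :=
  ∑ r, min 1 (∑ j, P.weight r j) *
    ((((P.circuit r).fanins.map (· + 1)).prod : ℕ) - 1 : ℝ)

/-- `G` has a clique with more than `√n` vertices. -/
def HasBigClique {n : ℕ} (G : SimpleGraph (Fin n)) : Prop :=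
  ∃ c : Finset (Fin n), G.IsClique (c : Set (Fin n)) ∧ Real.sqrt (n : ℝ) < (c.card : ℝ)

/-- The vote decides whether a graph has a clique with more than `√n` vertices: for some `θ` the
score is at least `θ + 1` if it has one and at most `θ` if not. Here `inp v G` is the value of the
input `v` on the graph `G`. -/
def Vote.Decides {V : Type} {n : ℕ} (P : Vote V) (inp : V → SimpleGraph (Fin n) → Bool) : Prop :=
  ∃ θ : ℝ, (∀ G, HasBigClique G → θ + 1 ≤ P.score (fun v => inp v G)) ∧
    ∀ G, ¬ HasBigClique G → P.score (fun v => inp v G) ≤ θ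

/-- A Boolean function `φ` of `n`-vertex graphs that depends in an arbitrary way on the pairs
that do not join `A` to `B`, while in the pairs that join `A` to `B` it is monotone and depends on
at most `w` of them (those in `S`). Every variable is such a function if `w ≥ 1`. -/
def FreeOutside {n : ℕ} (A B : Finset (Fin n)) (w : ℕ) (φ : SimpleGraph (Fin n) → Bool) : Prop :=
  ∃ S : Finset (Fin n × Fin n), (∀ e ∈ S, e.1 ∈ A ∧ e.2 ∈ B) ∧ S.card ≤ w ∧
    ∀ G G' : SimpleGraph (Fin n),
      (∀ u v, ¬ (u ∈ A ∧ v ∈ B ∨ u ∈ B ∧ v ∈ A) → (G.Adj u v ↔ G'.Adj u v)) →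
      (∀ e ∈ S, G.Adj e.1 e.2 → G'.Adj e.1 e.2) → φ G = true → φ G' = true

open Classical in
/-- the adjacency bits of `G` -/
noncomputable def bits {n : ℕ} : Fin n × Fin n → SimpleGraph (Fin n) → Bool :=
  fun e G => decide (G.Adj e.1 e.2)

/-- the explicit bound -/
theorem explicit (d n : ℕ) (hd : 1 ≤ d)
    (hn : 2 ^ 88 * (Nat.log 2 (3 * d) + 1) ^ 8 * (3 * d) ^ 4 ≤ n)
    (A B : Finset (Fin n)) (hAB : Disjoint A B) (hc : 2 * (A.card + B.card) ≤ n)
    (V : Type) (inp : V → SimpleGraph (Fin n) → Bool) (hinp : ∀ v, FreeOutside A B d (inp v))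
    (P : Vote V) (S : ℕ) (hS : P.SizeLe S) (hP : P.Decides inp) :
    ((A.card * (B.card / (2 ^ 42 * (Nat.log 2 (3 * d) + 1) ^ 4 * (3 * d) ^ 2)) : ℕ) : ℝ) *
      (1 - 3 * (S + 1) * P.total / 4 ^ d) ≤ P.charge := by
  obtain ⟨θ, h1, h2⟩ := hP
  have h := Pool.Agent.W935.LC.vote_clique d n hd hn A B hAB hc inp (by
    intro v
    obtain ⟨S, k1, k2, k3⟩ := hinp v
    refine ⟨S.image (fun e => s(e.1, e.2)), ?_, Finset.card_image_le.trans k2, ?_⟩
    · intro e he
      obtain ⟨p, hp, rfl⟩ := Finset.mem_image.mp he
      exact Or.inl (k1 p hp)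
    · intro G G' m1 m2 m3
      refine k3 G G' (fun u v huv => m1 u v huv) (fun e he => m2 e.1 e.2 ?_) m3
      exact Finset.mem_image_of_mem _ he) P.circuit S hS P.weight P.nonneg θ
    (fun G hG => h1 G hG) (fun G hG => h2 G hG)
  refine le_trans ?_ h
  apply mul_le_mul_of_nonneg_left _ (Nat.cast_nonneg _)
  have hW : 0 ≤ P.total :=
    Finset.sum_nonneg (fun r _ => Finset.sum_nonneg (fun j _ => P.nonneg r j))
  have hm : ((max S 1 : ℕ) : ℝ) ≤ S + 1 := by
    have : max S 1 ≤ S + 1 := by omega
    exact_mod_cast this
  have h4 : (0 : ℝ) < 4 ^ d := by positivity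
  have e1 : 3 * (((max S 1 : ℕ) : ℝ) * (1 / 4) ^ d) * (∑ r, ∑ j, P.weight r j) =
      3 * ((max S 1 : ℕ) : ℝ) * P.total / 4 ^ d := by
    rw [one_div, inv_pow, Vote.total]
    field_simp
  rw [e1]
  have e2 : 3 * ((max S 1 : ℕ) : ℝ) * P.total / 4 ^ d ≤ 3 * (S + 1) * P.total / 4 ^ d := by
    apply div_le_div_of_nonneg_right _ h4.le
    apply mul_le_mul_of_nonneg_right _ hW
    linarith
  linarith

/-- **Weighted votes of circuits for CLIQUE.**

(1) Let `A`, `B` be disjoint sets of vertices, `2 (|A| + |B|) ≤ n`, `d ≥ 1`,
`L = ⌊log₂ (3 d)⌋ + 1` and `n ≥ 2^88 L^8 (3 d)^4`. If a vote of circuits of size at most `S`, whose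
inputs are functions `FreeOutside A B d`, decides whether a graph with `n` vertices has a clique
with more than `√n` vertices, then its charge is at least
`|A| ⌊|B| / (2^42 L^4 (3 d)^2)⌋ (1 - 3 (S + 1) W / 4^d)`, where `W` is the total weight.

(2) Let `δ ≥ 0`, `4 δ < 1` and `α + 2 δ < 2`. For all large `n`, each vote of circuits of size at
most `2^(n^δ)` with total weight at most `2^(n^δ)` that decides this from the adjacency bits has
charge at least `n^α`. -/
theorem result :
    (∀ d n : ℕ, 1 ≤ d → 2 ^ 88 * (Nat.log 2 (3 * d) + 1) ^ 8 * (3 * d) ^ 4 ≤ n →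
      ∀ A B : Finset (Fin n), Disjoint A B → 2 * (A.card + B.card) ≤ n →
      ∀ (V : Type) (inp : V → SimpleGraph (Fin n) → Bool), (∀ v, FreeOutside A B d (inp v)) →
      ∀ (P : Vote V) (S : ℕ), P.SizeLe S → P.Decides inp →
        ((A.card * (B.card / (2 ^ 42 * (Nat.log 2 (3 * d) + 1) ^ 4 * (3 * d) ^ 2)) : ℕ) : ℝ) *
          (1 - 3 * (S + 1) * P.total / 4 ^ d) ≤ P.charge) ∧
    (∀ δ α : ℝ, 0 ≤ δ → 4 * δ < 1 → α + 2 * δ < 2 → ∃ n₀ : ℕ, ∀ n : ℕ, n₀ ≤ n →
      ∀ (P : Vote (Fin n × Fin n)) (S : ℕ), P.SizeLe S → (S : ℝ) ≤ 2 ^ ((n : ℝ) ^ δ) →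
        P.total ≤ 2 ^ ((n : ℝ) ^ δ) → P.Decides bits → (n : ℝ) ^ α ≤ P.charge) := by
  classical
  refine ⟨fun d n hd hn A B hAB hc V inp hinp P S hS hP =>
    explicit d n hd hn A B hAB hc V inp hinp P S hS hP, ?_⟩
  intro δ α hδ hδ4 hα
  obtain ⟨N, hN⟩ := Pool.Agent.W935.LC.vote_params δ α hδ hδ4 hα
  refine ⟨N, fun n hn P S hS hSn hW hP => ?_⟩
  obtain ⟨d, hd1, hd2, hd3, hd4⟩ := hN n hn
  let A : Finset (Fin n) := Finset.univ.filter (fun i => i.val < n / 4)
  let B : Finset (Fin n) := Finset.univ.filter (fun i => n / 4 ≤ i.val ∧ i.val < 2 * (n / 4))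
  have hAB : Disjoint A B := by
    rw [Finset.disjoint_left]
    intro i hi hi'
    simp only [A, B, Finset.mem_filter, Finset.mem_univ, true_and] at hi hi'
    omega
  have hA : A.card = n / 4 := by
    have : A = (Finset.univ : Finset (Fin (n / 4))).map
        (⟨fun i => (⟨i.val, by omega⟩ : Fin n),
          fun i j h => Fin.ext (by simpa using h)⟩ : Fin (n / 4) ↪ Fin n) := by
      ext i
      simp only [A, Finset.mem_filter, Finset.mem_univ, true_and, Finset.mem_map]
      constructor
      · intro h
        exact ⟨⟨i.val, h⟩, rfl⟩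
      · rintro ⟨j, rfl⟩
        exact j.isLt
    rw [this, Finset.card_map, Finset.card_univ, Fintype.card_fin]
  have hB : B.card = n / 4 := by
    have : B = (Finset.univ : Finset (Fin (n / 4))).map
        (⟨fun i => (⟨n / 4 + i.val, by omega⟩ : Fin n),
          fun i j h => Fin.ext (by simpa using h)⟩ : Fin (n / 4) ↪ Fin n) := by
      ext i
      simp only [B, Finset.mem_filter, Finset.mem_univ, true_and, Finset.mem_map]
      constructor
      · intro h
        exact ⟨⟨i.val - n / 4, by omega⟩,
          Fin.ext (by show n / 4 + (i.val - n / 4) = i.val; omega)⟩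
      · rintro ⟨j, rfl⟩
        have := j.isLt
        constructor
        · show n / 4 ≤ n / 4 + j.val
          omega
        · show n / 4 + j.val < 2 * (n / 4)
          omega
    rw [this, Finset.card_map, Finset.card_univ, Fintype.card_fin]
  have h := explicit d n hd1 hd2 A B hAB (by rw [hA, hB]; omega) (Fin n × Fin n) bits (by
    rintro ⟨u, v⟩
    refine ⟨(if u ∈ A ∧ v ∈ B then {(u, v)} else if u ∈ B ∧ v ∈ A then {(v, u)} else ∅),
      ?_, ?_, ?_⟩
    · intro e he
      split_ifs at he with h1 h2
      · rw [Finset.mem_singleton] at he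
        subst he
        exact h1
      · rw [Finset.mem_singleton] at he
        subst he
        exact ⟨h2.2, h2.1⟩
      · exact absurd he (Finset.notMem_empty _)
    · split_ifs <;> simp <;> omega
    · intro G G' h1 h2 h3
      simp only [bits, decide_eq_true_eq] at h3 ⊢
      by_cases k1 : u ∈ A ∧ v ∈ B
      · rw [if_pos k1] at h2
        exact h2 (u, v) (Finset.mem_singleton_self _) h3
      · rw [if_neg k1] at h2
        by_cases k2 : u ∈ B ∧ v ∈ A
        · rw [if_pos k2] at h2
          exact (h2 (v, u) (Finset.mem_singleton_self _) h3.symm).symm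
        · exact (h1 u v (by tauto)).mp h3) P S hS hP
  rw [hA, hB] at h
  refine le_trans ?_ h
  -- the error term
  have hx1 : (1 : ℝ) ≤ 2 ^ ((n : ℝ) ^ δ) := Real.one_le_rpow (by norm_num) (by positivity)
  have hx0 : (0 : ℝ) < 2 ^ ((n : ℝ) ^ δ) := by positivity
  have h4d : 16 * ((2 : ℝ) ^ ((n : ℝ) ^ δ) * 2 ^ ((n : ℝ) ^ δ)) ≤ 4 ^ d := by
    have e1 : (4 : ℝ) ^ d = (2 : ℝ) ^ (2 * (d : ℝ)) := by
      rw [Real.rpow_mul (by norm_num), Real.rpow_natCast]
      norm_num
    have e2 : 16 * ((2 : ℝ) ^ ((n : ℝ) ^ δ) * 2 ^ ((n : ℝ) ^ δ)) =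
        (2 : ℝ) ^ ((4 : ℝ) + ((n : ℝ) ^ δ + (n : ℝ) ^ δ)) := by
      rw [Real.rpow_add (by norm_num), Real.rpow_add (by norm_num)]
      norm_num
    rw [e1, e2]
    exact Real.rpow_le_rpow_of_exponent_le (by norm_num) (by linarith)
  have hW0 : 0 ≤ P.total :=
    Finset.sum_nonneg (fun r _ => Finset.sum_nonneg (fun j _ => P.nonneg r j))
  have herr : 3 * (S + 1) * P.total / 4 ^ d ≤ 1 / 2 := by
    rw [div_le_iff₀ (by positivity)]
    have h1 : (S + 1 : ℝ) * P.total ≤ (2 * 2 ^ ((n : ℝ) ^ δ)) * 2 ^ ((n : ℝ) ^ δ) := by
      apply mul_le_mul (by linarith) hW hW0 (by positivity)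
    nlinarith
  have hM0 : (0 : ℝ) ≤ (((n / 4) * ((n / 4) /
      (2 ^ 42 * (Nat.log 2 (3 * d) + 1) ^ 4 * (3 * d) ^ 2)) : ℕ) : ℝ) := Nat.cast_nonneg _
  have hfin : (((n / 4) * ((n / 4) /
      (2 ^ 42 * (Nat.log 2 (3 * d) + 1) ^ 4 * (3 * d) ^ 2)) : ℕ) : ℝ) * (1 / 2) ≤
      (((n / 4) * ((n / 4) / (2 ^ 42 * (Nat.log 2 (3 * d) + 1) ^ 4 * (3 * d) ^ 2)) : ℕ) : ℝ) *
        (1 - 3 * (S + 1) * P.total / 4 ^ d) :=
    mul_le_mul_of_nonneg_left (by linarith) hM0
  linarith

end Pool.Agent.Results.MP_0a1b52_lc.WeightedVotes
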