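import Pool.Agent.W953.NW.Graph

/-!
# CLIQUE on few edge counts, or with all but few of `log N` NOT gates

On the graphs with exactly `m` edges negations do not help to decide CLIQUE (Berkowitz, Valiant),
and `⌈log (N + 1)⌉` NOT gates are enough on all graphs, `N = n (n - 1) / 2` (Markov, Fischer).
Hence lower bounds for all circuits are equivalent to lower bounds for circuits without NOT gates
that are only correct for one number of edges, and to lower bounds for circuits with that many NOT
gates. Here it is shown that they are also equivalent to lower bounds for circuits without NOT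
gates that are correct for any constant number of consecutive numbers of edges, and for circuits
with `log N - K` NOT gates, for every constant `K`; for circuits of size `2 ^ O(D)`, to lower bounds
for `w D / log n` consecutive numbers of edges and for `log N - log (D / log n) - K` NOT gates.

The main step: let `g` agree with the monotone function `f` on the slices `k, ..., k + w` and be
`0` below, and let `h` agree with `f` on the slice `k + w + 1` and be `0` below. Then the function
`h(x) ∨ Th_{N - k - w} (g (x with x_1 := 0), ..., g (x with x_N := 0))` agrees with `f` on all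
these slices, and it is `0` below them.
-/

set_option autoImplicit false

namespace Pool.Agent.Results.MP_0a1b52_lc.ZFewEdgeCounts

open Pool.Agent.H540R2

variable {n : ℕ}

/-- a numbering of the pairs of vertices -/
noncomputable def pairNo (n : ℕ) : {p : Fin n × Fin n // p.1 < p.2} ≃ Fin (n.choose 2) :=
  Fintype.equivFinOfCardEq (W953.NW.card_pairs n)

/-- the graph whose edges are the pairs with true bits -/
def graph (x : Fin (n.choose 2) → Bool) : SimpleGraph (Fin n) :=
  SimpleGraph.fromRel (fun i j => ∃ h : i < j, x (pairNo n ⟨(i, j), h⟩) = true)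

/-- the number of edges of the graph -/
def edges (x : Fin (n.choose 2) → Bool) : ℕ := (Finset.univ.filter (fun e => x e = true)).card

/-- `G` has a clique with more than `√n` vertices. -/
def HasBigClique (G : SimpleGraph (Fin n)) : Prop :=
  ∃ c : Finset (Fin n), G.IsClique (c : Set (Fin n)) ∧ Real.sqrt (n : ℝ) < (c.card : ℝ)

/-- The negated form of Q1: the clique function has circuits of polynomial size that consist of
AND and OR gates of fan-in two and whose inputs are literals (or constants). -/
def NegatedQ1 : Prop :=
  ∃ k : ℕ, ∀ n ≥ 2, ∃ C : Circuit (n.choose 2 + n.choose 2), C.Monotone ∧ C.size ≤ n ^ k ∧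
    ∀ x, (C.eval (Fin.append x fun e => !(x e)) = true ↔ HasBigClique (graph x))

/-- The clique function has circuits (with NOT gates) of size `2 ^ O(D n)`. -/
def Circuits (D : ℕ → ℕ) : Prop :=
  ∃ c : ℕ, ∀ n ≥ 2, ∃ C : Circuit (n.choose 2), C.size ≤ 2 ^ (c * D n) ∧
    ∀ x, (C.eval x = true ↔ HasBigClique (graph x))

/-- The clique function has circuits of size `2 ^ O(D n)` with at most `log N - K n` NOT gates. -/
def FewNots (D K : ℕ → ℕ) : Prop :=
  ∃ c : ℕ, ∀ n ≥ 2, ∃ C : Circuit (n.choose 2), C.nots ≤ Nat.log 2 (n.choose 2) - K n ∧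
    C.size ≤ 2 ^ (c * D n) ∧ ∀ x, (C.eval x = true ↔ HasBigClique (graph x))

/-- For all `m` there is a circuit without NOT gates, of size `2 ^ O(D n)`, that computes the
clique function on all graphs with at least `m` and at most `m + w n` edges. -/
def FewCounts (D w : ℕ → ℕ) : Prop :=
  ∃ c : ℕ, ∀ n ≥ 2, ∀ m, ∃ C : Circuit (n.choose 2), C.Monotone ∧ C.size ≤ 2 ^ (c * D n) ∧
    ∀ x, m ≤ edges x → edges x ≤ m + w n → (C.eval x = true ↔ HasBigClique (graph x))

/-- The negated form of Q1 is the existence of circuits of size `2 ^ O(log n)`. If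
`D n ≥ log n` for all `n ≥ 2`, the following are equivalent. (a) The clique function has circuits of
size `2 ^ O(D n)`. (b) For every constant `K` it has such circuits with at most
`log N - log (D n / log n) - K` NOT gates, `N = n (n - 1) / 2`. (c) For some function `K` it has
such circuits with at most `log N - K n` NOT gates. (d) For every constant `w` there are circuits of
size `2 ^ O(D n)` without NOT gates that compute it for any `w (D n / log n) + 1` consecutive
numbers of edges. (e) For some function `w` there are circuits of size `2 ^ O(D n)` without NOT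
gates that compute it for any `w n + 1` consecutive numbers of edges. -/
theorem result :
    (NegatedQ1 ↔ Circuits (Nat.log 2)) ∧
    ∀ D : ℕ → ℕ, (∀ n ≥ 2, Nat.log 2 n ≤ D n) →
      List.TFAE [Circuits D,
        ∀ K : ℕ, FewNots D (fun n => Nat.log 2 (D n / Nat.log 2 n) + K),
        ∃ K : ℕ → ℕ, FewNots D K,
        ∀ w : ℕ, FewCounts D (fun n => w * (D n / Nat.log 2 n)),
        ∃ w : ℕ → ℕ, FewCounts D w] := by
  have hP : ∀ (n : ℕ) (x y : Fin (n.choose 2) → Bool), (∀ i, x i ≤ y i) →
      HasBigClique (graph x) → HasBigClique (graph y) := by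
    intro n x y hxy ⟨c, h1, h2⟩
    refine ⟨c, h1.mono ?_, h2⟩
    intro i j hij
    rw [graph, SimpleGraph.fromRel_adj] at hij ⊢
    refine ⟨hij.1, ?_⟩
    rcases hij.2 with ⟨h, h'⟩ | ⟨h, h'⟩
    · have := hxy (pairNo n ⟨(i, j), h⟩)
      rw [h'] at this
      exact Or.inl ⟨h, Bool.eq_true_of_true_le this⟩
    · have := hxy (pairNo n ⟨(j, i), h⟩)
      rw [h'] at this
      exact Or.inr ⟨h, Bool.eq_true_of_true_le this⟩
  have main := fun (D : ℕ → ℕ) (hD : ∀ n ≥ 2, Nat.log 2 n ≤ D n) =>
    W953.NW.prop_tfae (P := fun n x => HasBigClique (graph x)) (D := D) hP hD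
  refine ⟨?_, fun D hD => (List.tfae_cons_cons.mp (main D hD)).2⟩
  refine Iff.trans ?_ ((main _ (fun n _ => le_rfl)).out 0 1)
  exact W953.NW.poly_iff (P := fun n s => ∃ C : Circuit (n.choose 2 + n.choose 2),
    C.Monotone ∧ C.size ≤ s ∧
    ∀ x, (C.eval (Fin.append x fun e => !(x e)) = true ↔ HasBigClique (graph x)))
    (fun n s t hst ⟨C, h1, h2, h3⟩ => ⟨C, h1, h2.trans hst, h3⟩)

end Pool.Agent.Results.MP_0a1b52_lc.ZFewEdgeCounts
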